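import Pool.Agent.AP157.Stab

set_option autoImplicit false

/-!
# MP_b84e2d_an, Q1: asymptotic local planarity is stable under bounded perturbations

The answer is positive: if `U` and `U'` satisfy (H), `d_H(U,U') < ∞` and the solution with initial
datum `1_U` is asymptotically locally planar, then so is the solution with initial datum `1_U'`.

Proof.  The two solutions are comparable: `u'(t) ≤ C u(t+1)` and `u(t) ≤ C u'(t+1)`.  Let `w` be a
limit of translates of `u'` and `v` the limit of the same translates of `u`; `v` depends on `x·e`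
only, hence `w(t,x+h) ≤ C² w(t+2,x)` for all `h` orthogonal to `e`.  A sliding argument in time
(`AP157/SlideD.lean`) shows that then `w(t,x+h) ≤ w(t,x)`.
-/

open MeasureTheory Set Filter

namespace Pool.Agent.Results.MP_b84e2d_an.BoundedPerturbation

open Pool.Agent.X297.KP Pool.Agent.AP157

/-- Let `N ≥ 1`, `f ∈ C¹([0,1])`, `f(0) = f(1) = 0`, `f > 0` on `(0,1)` and `f(s)/s` nonincreasing
on `(0,1]`.  Let `U, U' ⊆ ℝ^N` be measurable, `d_H(U,U_δ) < ∞` for some `δ > 0`,
`d_H(U',U'_δ') < ∞` for some `δ' > 0`, and `d_H(U,U') < ∞`.  Let `u`, `u'` be the solutions with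
initial data `1_U`, `1_U'`.  If every element of `Ω(u)` is one-dimensional, then every element of
`Ω(u')` is one-dimensional. -/
theorem result {N : ℕ} {f : ℝ → ℝ} (hf : ContDiffOn ℝ 1 f (Icc 0 1)) (h0 : f 0 = 0)
    (h1 : f 1 = 0) (hpos : ∀ s ∈ Ioo (0:ℝ) 1, 0 < f s)
    (hr : AntitoneOn (fun s => f s / s) (Ioc (0:ℝ) 1)) {U U' : Set (E N)}
    (hU : MeasurableSet U) (hU' : MeasurableSet U')
    (hH : ∃ δ : ℝ, 0 < δ ∧ Metric.hausdorffEDist U (shrink U δ) < ⊤)
    (hH' : ∃ δ : ℝ, 0 < δ ∧ Metric.hausdorffEDist U' (shrink U' δ) < ⊤)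
    (hd : Metric.hausdorffEDist U U' < ⊤) {u u' : ℝ → E N → ℝ} (hu : Classical f U u)
    (hu' : Classical f U' u') (hplanar : ∀ ψ ∈ OmegaLimit u, OneDimC2 ψ) :
    ∀ ψ ∈ OmegaLimit u', OneDimC2 ψ := by
  rintro ψ ⟨_, t, x, ht, hlim⟩
  obtain ⟨M, hM⟩ := nl_of hf h0 h1
  obtain ⟨δ, hδ, hUδ⟩ := hH
  obtain ⟨δ', hδ', hUδ'⟩ := hH'
  have hr' : ∀ a b : ℝ, 0 < a → a ≤ b → b ≤ 1 → f b / b ≤ f a / a := fun a b ha hab hb =>
    hr ⟨ha, hab.trans hb⟩ ⟨ha.trans_le hab, hb⟩ hab
  have hm : 0 < derivWithin f (Icc 0 1) 0 := by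
    have h2 := ratio_le hf h0 hr' (a := 1 / 2) (by norm_num) (by norm_num)
    have h3 := hpos (1 / 2) ⟨by norm_num, by norm_num⟩
    linarith
  have H := mn_of hf h1 hpos hm
  have h2 := omega_ae hlim
  have h3 : ∀ᵐ y, Tendsto (fun n => S f M (t n) (U'.indicator 1) (x n + y)) atTop
      (nhds (ψ y)) := by
    filter_upwards [h2] with y hy
    refine hy.congr' ?_
    filter_upwards [ht.eventually_gt_atTop 0] with n hn
    exact classical_eq hM hU' hu' (t n) hn (x n + y)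
  exact stab hM H (fun A hA => sub_of_ratio hf h0 hr' hA) hU hU' hδ hδ' hUδ hUδ' hd hu hplanar ht h3

end Pool.Agent.Results.MP_b84e2d_an.BoundedPerturbation
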